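import Mathlib
import Pool.Agent.R739.RD.Chi

/-!
# Characteristic functions with weights depending on the far digits
-/

set_option autoImplicit false

open MeasureTheory ProbabilityTheory Filter Topology
open scoped Real

namespace Pool.Agent.R739.RW

open Pool.Agent.R739.RD Pool.Agent.H534R3.UDist

/-- the σ-algebra generated by the variables `D j`, `j ≥ x` -/
abbrev Far {Ω : Type} (D : ℕ → Ω → ℝ) (x : ℝ) : MeasurableSpace Ω :=
  ⨆ j ∈ {j : ℕ | x ≤ (j : ℝ)}, MeasurableSpace.comap (D j) inferInstance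

lemma far_anti {Ω : Type} (D : ℕ → Ω → ℝ) {x y : ℝ} (h : x ≤ y) : Far D y ≤ Far D x := by
  unfold Far
  refine iSup₂_le fun j hj => ?_
  exact le_iSup₂_of_le j (h.trans hj) le_rfl

lemma far_le {Ω : Type} [mΩ : MeasurableSpace Ω] (D : ℕ → Ω → ℝ) (hD : ∀ j, Measurable (D j))
    (x : ℝ) : Far D x ≤ mΩ := by
  unfold Far
  exact iSup₂_le fun j _ => (hD j).comap_le

lemma measurable_far {Ω : Type} (D : ℕ → Ω → ℝ) {x : ℝ} {j : ℕ} (h : x ≤ j) :
    Measurable[Far D x] (D j) := by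
  have h1 : MeasurableSpace.comap (D j) inferInstance ≤ Far D x :=
    le_iSup₂_of_le (f := fun (j : ℕ) (_ : j ∈ {j : ℕ | x ≤ (j : ℝ)}) =>
      MeasurableSpace.comap (D j) inferInstance) j h le_rfl
  exact (comap_measurable (D j)).mono h1 le_rfl

theorem chi_le_Z {Ω : Type} [mΩ : MeasurableSpace Ω] (P : Measure Ω) [IsProbabilityMeasure P]
    (D : ℕ → Ω → ℝ) (hD : ∀ j, Measurable (D j)) (hI : iIndepFun D P)
    (g : ℕ → ℝ → ℝ) (hg : ∀ j, Measurable (g j)) (ξ : Ω → ℝ)
    (hs : ∀ ω, Tendsto (fun n => ∑ j ∈ Finset.range n, g j (D j ω)) atTop (𝓝 (ξ ω)))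
    (t : ℝ) (k : ℕ) (S : Finset ℕ) (hS : S ⊆ Finset.range k) (Z : Ω → ℂ)
    (hZ : Measurable[Far D k] Z) (hZ1 : ∀ ω, ‖Z ω‖ ≤ 1) :
    ‖∫ ω, Z ω * ee (t * ξ ω) ∂P‖ ≤ ∏ j ∈ S, ‖∫ ω, ee (t * g j (D j ω)) ∂P‖ := by
  set R : Ω → ℝ := fun ω => ξ ω - ∑ j ∈ Finset.range k, g j (D j ω) with hR
  set H : Ω → ℂ := fun ω => ee (t * ∑ j ∈ Finset.range k, g j (D j ω)) with hH
  set G : Ω → ℂ := fun ω => Z ω * ee (t * R ω) with hG
  have hgD : ∀ j, Measurable fun ω => g j (D j ω) := fun j => (hg j).comp (hD j)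
  have hI' : iIndepFun (fun j ω => g j (D j ω)) P := hI.comp g hg
  -- the far part
  have hRm : Measurable[Far D k] R := by
    refine @measurable_of_tendsto_metrizable _ _ (Far D k) _ _ _ _
      (fun (n : ℕ) ω => ∑ j ∈ Finset.Ico k n, g j (D j ω)) R (fun n => ?_) ?_
    · refine @Finset.measurable_fun_sum _ _ _ _ _ _ (Far D k) _ _ fun j hj => ?_
      exact (hg j).comp (measurable_far D (by exact_mod_cast (Finset.mem_Ico.1 hj).1))
    · rw [tendsto_pi_nhds]
      intro ω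
      have h1 := (hs ω).sub_const (∑ j ∈ Finset.range k, g j (D j ω))
      refine h1.congr' ?_
      filter_upwards [eventually_ge_atTop k] with n hn
      rw [Finset.sum_Ico_eq_sub _ hn]
  have hG0 : Measurable[Far D k] fun ω => ee (t * R ω) :=
    measurable_ee.comp (hRm.const_mul t)
  have hGm : Measurable[Far D k] G := hZ.mul hG0
  have hGmm : Measurable G := hGm.mono (far_le D hD k) le_rfl
  -- the near part
  have hHm : Measurable[⨆ j ∈ {j : ℕ | j < k}, MeasurableSpace.comap (D j) inferInstance] H := by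
    refine measurable_ee.comp ?_
    refine Measurable.const_mul ?_ t
    refine @Finset.measurable_fun_sum _ _ _ _ _ _
      (⨆ j ∈ {j : ℕ | j < k}, MeasurableSpace.comap (D j) inferInstance) _ _ fun j hj => ?_
    have h1 : MeasurableSpace.comap (D j) inferInstance ≤
        ⨆ j ∈ {j : ℕ | j < k}, MeasurableSpace.comap (D j) (inferInstance : MeasurableSpace ℝ) :=
      le_iSup₂_of_le (f := fun (j : ℕ) (_ : j ∈ {j : ℕ | j < k}) =>
        MeasurableSpace.comap (D j) inferInstance) j (Finset.mem_range.1 hj) le_rfl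
    exact (hg j).comp ((comap_measurable (D j)).mono h1 le_rfl)
  have hHmm : Measurable H :=
    measurable_ee.comp ((Finset.measurable_fun_sum _ fun j _ => hgD j).const_mul t)
  -- independence
  have hind : IndepFun H G P := by
    rw [IndepFun_iff_Indep]
    have hdisj : Disjoint {j : ℕ | j < k} {j : ℕ | (k : ℝ) ≤ (j : ℝ)} := by
      rw [Set.disjoint_left]
      intro j h1 h2
      have h3 : k ≤ j := by exact_mod_cast (h2 : (k : ℝ) ≤ (j : ℝ))
      have h4 : j < k := h1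
      omega
    have h1 := indep_iSup_of_disjoint (m := fun j => MeasurableSpace.comap (D j) inferInstance)
      (fun j => (hD j).comap_le) ((iIndepFun_iff_iIndep _ _ _).1 hI) hdisj
    exact indep_of_indep_of_le h1 hHm.comap_le hGm.comap_le
  have e1 : ∀ ω, Z ω * ee (t * ξ ω) = H ω * G ω := by
    intro ω
    have h2 : t * ξ ω = t * ∑ j ∈ Finset.range k, g j (D j ω) + t * R ω := by
      rw [hR]
      ring
    rw [h2, ee_add]
    simp only [hH, hG]
    ring
  simp only [e1]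
  rw [hind.integral_fun_mul_eq_mul_integral hHmm.aestronglyMeasurable hGmm.aestronglyMeasurable,
    norm_mul]
  have hG1 : ‖∫ ω, G ω ∂P‖ ≤ 1 := by
    have := norm_integral_le_of_norm_le_const (μ := P) (f := G) (C := 1)
      (Eventually.of_forall fun ω => by
        simp only [hG]
        rw [norm_mul, norm_ee, mul_one]
        exact hZ1 ω)
    simpa using this
  have hH1 : ‖∫ ω, H ω ∂P‖ ≤ ∏ j ∈ S, ‖∫ ω, ee (t * g j (D j ω)) ∂P‖ := by
    have h3 := chi_prod P (fun j ω => g j (D j ω)) hgD hI' k t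
    simp only [hH]
    rw [h3, norm_prod, ← Finset.prod_sdiff hS]
    have h4 : ∏ j ∈ Finset.range k \ S, ‖∫ ω, ee (t * g j (D j ω)) ∂P‖ ≤ 1 :=
      Finset.prod_le_one (fun j _ => norm_nonneg _) fun j _ => norm_int_le P _
    have h5 : 0 ≤ ∏ j ∈ S, ‖∫ ω, ee (t * g j (D j ω)) ∂P‖ :=
      Finset.prod_nonneg fun j _ => norm_nonneg _
    calc _ ≤ 1 * ∏ j ∈ S, ‖∫ ω, ee (t * g j (D j ω)) ∂P‖ := mul_le_mul_of_nonneg_right h4 h5
      _ = _ := one_mul _
  calc ‖∫ ω, H ω ∂P‖ * ‖∫ ω, G ω ∂P‖ ≤ (∏ j ∈ S, ‖∫ ω, ee (t * g j (D j ω)) ∂P‖) * 1 :=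
        mul_le_mul hH1 hG1 (norm_nonneg _) (Finset.prod_nonneg fun j _ => norm_nonneg _)
    _ = _ := mul_one _

end Pool.Agent.R739.RW
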