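import Mathlib
import Pool.Agent.R739.RW.ChiZ
import Pool.Agent.R739.RP.PBad

/-!
# Second moments of Weyl sums with weights depending on the far digits
-/

set_option autoImplicit false

open Finset Filter Topology MeasureTheory
open scoped Real

namespace Pool.Agent.R739.RW

open Pool.Agent.R739.RD hiding bad card_bad small_of_good mom_le moment
open Pool.Agent.R739.RP Pool.Agent.H534R3.UDist

/-- the decay of the weighted characteristic function of `ξ` along the digits in base `β` -/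
def DecZ {Ω : Type} [MeasurableSpace Ω] (P : Measure Ω) (D : ℕ → Ω → ℝ) (ξ : Ω → ℝ)
    (β ε lam ρ : ℝ) : Prop :=
  ∀ (t : ℝ) (k : ℕ) (S : Finset ℕ), S ⊆ range k → (∀ j ∈ S, ε ≤ dz (lam * t / β ^ (j + 1))) →
    ∀ Z : Ω → ℂ, Measurable[Far D k] Z → (∀ ω, ‖Z ω‖ ≤ 1) →
    ‖∫ ω, Z ω * ee (t * ξ ω) ∂P‖ ≤ ρ ^ S.card

lemma small_of_good {Ω : Type} [MeasurableSpace Ω] {P : Measure Ω} {D : ℕ → Ω → ℝ} {ξ : Ω → ℝ}
    {β ε lam ρ : ℝ} (hD : DecZ P D ξ β ε lam ρ) (hβ : 1 < β) (a : ℝ) (X N K l : ℕ) (n m : ℕ)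
    (hn : n ∈ Ioc X N)
    (h : ∀ k < K, n ∉ RP.bad β ε (lam * a) (lam * a * Real.exp m) X N ((k + 1) * l) l)
    (Z : Ω → ℂ) (hZ : Measurable[Far D ((K * l : ℕ) : ℝ)] Z) (hZ1 : ∀ ω, ‖Z ω‖ ≤ 1) :
    ‖∫ ω, Z ω * ee (a * (Real.exp n - Real.exp m) * ξ ω) ∂P‖ ≤ ρ ^ K := by
  classical
  have hβ0 : 0 < β := by linarith
  have h1 : ∀ k : ℕ, ∃ i : ℕ, k < K → i < l ∧ ε ≤ dz (β ^ i *
      ((lam * a * Real.exp n - lam * a * Real.exp m) / β ^ ((k + 1) * l))) := by
    intro k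
    by_cases hk : k < K
    · have h2 := h k hk
      rw [RP.bad, mem_filter] at h2
      push Not at h2
      obtain ⟨i, hi, hi2⟩ := h2 hn
      exact ⟨i, fun _ => ⟨hi, hi2⟩⟩
    · exact ⟨0, fun h => absurd h hk⟩
  choose i hi using h1
  set j : ℕ → ℕ := fun k => (k + 1) * l - i k - 1 with hj
  have hj1 : ∀ k < K, k * l ≤ j k ∧ j k < (k + 1) * l ∧ j k + 1 + i k = (k + 1) * l := by
    intro k hk
    have h3 := (hi k hk).1
    have e : (k + 1) * l = k * l + l := by ring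
    simp only [hj]
    omega
  have hinj : Set.InjOn j (range K : Finset ℕ) := by
    intro k hk k' hk' he
    rw [mem_coe, mem_range] at hk hk'
    have h3 := hj1 k hk
    have h4 := hj1 k' hk'
    rw [he] at h3
    by_contra hne
    rcases Nat.lt_or_gt_of_ne hne with hlt | hlt
    · have : (k + 1) * l ≤ k' * l := Nat.mul_le_mul_right l hlt
      omega
    · have : (k' + 1) * l ≤ k * l := Nat.mul_le_mul_right l hlt
      omega
  have hcard : ((range K).image j).card = K := by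
    rw [card_image_of_injOn hinj, card_range]
  have hsub : (range K).image j ⊆ range (K * l) := by
    intro q hq
    rw [mem_image] at hq
    obtain ⟨k, hk, rfl⟩ := hq
    rw [mem_range] at hk ⊢
    have h3 := (hj1 k hk).2.1
    have h4 : (k + 1) * l ≤ K * l := Nat.mul_le_mul_right l hk
    omega
  have h5 := hD (a * (Real.exp n - Real.exp m)) (K * l) ((range K).image j) hsub ?_ Z hZ hZ1
  · rwa [hcard] at h5
  · intro q hq
    rw [mem_image] at hq
    obtain ⟨k, hk, rfl⟩ := hq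
    rw [mem_range] at hk
    have h6 := (hi k hk).2
    have h7 := (hj1 k hk).2.2
    have e : lam * (a * (Real.exp n - Real.exp m)) / β ^ (j k + 1) = β ^ i k *
      ((lam * a * Real.exp n - lam * a * Real.exp m) / β ^ ((k + 1) * l)) := by
      rw [← h7, pow_add β (j k + 1) (i k)]
      have h8 : β ^ (j k + 1) ≠ 0 := by positivity
      have h9 : β ^ i k ≠ 0 := by positivity
      field_simp
    rw [e]
    exact h6

lemma measurable_TTZ {Ω : Type} [MeasurableSpace Ω] (Z : ℕ → Ω → ℂ) (hZ : ∀ n, Measurable (Z n))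
    (ξ : Ω → ℝ) (hξ : Measurable ξ) (a : ℝ) (X N : ℕ) :
    Measurable fun ω => TT (fun n => Z n ω) a X N (ξ ω) := by
  unfold TT
  refine Finset.measurable_fun_sum _ fun n _ => ?_
  exact (hZ n).mul (measurable_ee.comp ((hξ.const_mul a).mul_const _))

lemma mom_le {Ω : Type} [MeasurableSpace Ω] {P : Measure Ω} [IsProbabilityMeasure P]
    {ξ : Ω → ℝ} (hξ : Measurable ξ) (Z : ℕ → Ω → ℂ) (hZ : ∀ n, Measurable (Z n))
    (hZ1 : ∀ n ω, ‖Z n ω‖ ≤ 1) (a : ℝ) (X N : ℕ) :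
    ∫ ω, ‖TT (fun n => Z n ω) a X N (ξ ω)‖ ^ 2 ∂P ≤
      ∑ m ∈ Ioc X N, ∑ n ∈ Ioc X N, ‖∫ ω, (Z n ω * (starRingEnd ℂ) (Z m ω)) *
        ee (a * (Real.exp n - Real.exp m) * ξ ω) ∂P‖ := by
  have e1 : ∀ ω, ((‖TT (fun n => Z n ω) a X N (ξ ω)‖ ^ 2 : ℝ) : ℂ) =
      ∑ m ∈ Ioc X N, ∑ n ∈ Ioc X N, (Z n ω * (starRingEnd ℂ) (Z m ω)) *
        ee (a * (Real.exp n - Real.exp m) * ξ ω) := by
    intro ω
    have h1 : ((‖TT (fun n => Z n ω) a X N (ξ ω)‖ ^ 2 : ℝ) : ℂ) =
        TT (fun n => Z n ω) a X N (ξ ω) *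
          (starRingEnd ℂ) (TT (fun n => Z n ω) a X N (ξ ω)) := by
      rw [Complex.mul_conj, Complex.normSq_eq_norm_sq]
    rw [h1, mul_comm]
    unfold TT
    rw [map_sum, sum_mul]
    refine sum_congr rfl fun m _ => ?_
    rw [mul_sum]
    refine sum_congr rfl fun n _ => ?_
    rw [map_mul, ee_conj]
    have e2 : a * (Real.exp n - Real.exp m) * ξ ω =
      a * ξ ω * Real.exp n + -(a * ξ ω * Real.exp m) := by ring
    rw [e2, ee_add]
    ring
  have hint : ∀ n m : ℕ, Integrable (fun ω => (Z n ω * (starRingEnd ℂ) (Z m ω)) *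
        ee (a * (Real.exp n - Real.exp m) * ξ ω)) P := fun n m => by
    have hc : Measurable fun ω => (starRingEnd ℂ) (Z m ω) :=
      Complex.continuous_conj.measurable.comp (hZ m)
    have hm : Measurable fun ω => (Z n ω * (starRingEnd ℂ) (Z m ω)) *
        ee (a * (Real.exp n - Real.exp m) * ξ ω) :=
      ((hZ n).mul hc).mul (measurable_ee.comp (hξ.const_mul _))
    refine Integrable.of_bound hm.aestronglyMeasurable 1 (Eventually.of_forall fun ω => ?_)
    rw [norm_mul, norm_mul, norm_ee, mul_one, RCLike.norm_conj]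
    have := mul_le_mul (hZ1 n ω) (hZ1 m ω) (norm_nonneg _) zero_le_one
    simpa using this
  have e3 : ((∫ ω, ‖TT (fun n => Z n ω) a X N (ξ ω)‖ ^ 2 ∂P : ℝ) : ℂ) =
      ∑ m ∈ Ioc X N, ∑ n ∈ Ioc X N, ∫ ω, (Z n ω * (starRingEnd ℂ) (Z m ω)) *
        ee (a * (Real.exp n - Real.exp m) * ξ ω) ∂P := by
    rw [← integral_complex_ofReal]
    simp only [e1]
    rw [integral_finsetSum _ fun m _ => integrable_finsetSum _ fun n _ => hint n m]
    refine sum_congr rfl fun m _ => ?_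
    rw [integral_finsetSum _ fun n _ => hint n m]
  have h4 : ∫ ω, ‖TT (fun n => Z n ω) a X N (ξ ω)‖ ^ 2 ∂P =
      ‖((∫ ω, ‖TT (fun n => Z n ω) a X N (ξ ω)‖ ^ 2 ∂P : ℝ) : ℂ)‖ := by
    rw [Complex.norm_real, Real.norm_eq_abs, abs_of_nonneg]
    exact integral_nonneg fun ω => sq_nonneg _
  rw [h4, e3]
  exact (norm_sum_le _ _).trans (sum_le_sum fun m _ => norm_sum_le _ _)

theorem moment : ∃ A : ℝ, 0 < A ∧ ∀ {Ω : Type} [MeasurableSpace Ω] (P : Measure Ω)
    [IsProbabilityMeasure P] (D : ℕ → Ω → ℝ) (ξ : Ω → ℝ), (∀ j, Measurable (D j)) →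
    Measurable ξ → ∀ (β ε lam ρ Cc θ : ℝ) (d : ℕ), 1 < β →
    0 < θ → Wn β ε Cc θ d → lam ≠ 0 →
    0 ≤ ρ → DecZ P D ξ β ε lam ρ → ∀ κ : ℝ, 0 < κ → ∀ (Z : ℕ → Ω → ℂ),
    (∀ n : ℕ, Measurable[Far D (κ * n)] (Z n)) →
    (∀ n ω, ‖Z n ω‖ ≤ 1) → ∀ a : ℝ, a ≠ 0 → ∀ δ : ℝ, 0 < δ →
    δ ≤ 1 → ∀ (X N K l : ℕ), 1 ≤ N → Cc * θ ^ ((l - d) / 2) < Real.exp (-(δ * N)) →
    K * l * Real.log β ≤ X → (K : ℝ) * l ≤ κ * X →
    ∫ ω, ‖TT (fun n => Z n ω) a X N (ξ ω)‖ ^ 2 ∂P ≤
      N * (N * ρ ^ K + K * (A / δ * ((N : ℝ) ^ (1 - δ ^ 2 / 1280) +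
        (|Real.log (|lam * a|)| + 1)))) := by
  classical
  obtain ⟨A, hA, hcard⟩ := RP.card_bad
  refine ⟨A, hA, ?_⟩
  intro Ω _ P _ D ξ hDm hξ β ε lam ρ Cc θ d hβ hθ hW hlam hρ hD κ hκ Z hZ hZ1 a ha δ hδ hδ1 X N K l
    hN hCl hKl hKκ
  have hZm : ∀ n, Measurable (Z n) := fun n => (hZ n).mono (far_le D hDm _) le_rfl
  refine (mom_le hξ Z hZm hZ1 a X N).trans ?_
  set B : ℝ := A / δ * ((N : ℝ) ^ (1 - δ ^ 2 / 1280) + (|Real.log (|lam * a|)| + 1)) with hB
  have hβ0 : 0 < β := by linarith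
  have hlog : 0 ≤ Real.log β := Real.log_nonneg hβ.le
  have hB0 : 0 ≤ B := by positivity
  have hcI : ((Ioc X N).card : ℝ) ≤ N := by
    rw [Nat.card_Ioc]
    exact_mod_cast Nat.sub_le N X
  have hfar : ∀ n ∈ Ioc X N, Measurable[Far D ((K * l : ℕ) : ℝ)] (Z n) := by
    intro n hn
    refine (hZ n).mono (far_anti D ?_) le_rfl
    push_cast
    refine hKκ.trans (mul_le_mul_of_nonneg_left ?_ hκ.le)
    exact_mod_cast (mem_Ioc.1 hn).1.le
  have hfar2 : ∀ n ∈ Ioc X N, ∀ m ∈ Ioc X N, Measurable[Far D ((K * l : ℕ) : ℝ)]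
      (fun ω => Z n ω * (starRingEnd ℂ) (Z m ω)) := by
    intro n hn m hm
    exact (hfar n hn).mul (Complex.continuous_conj.measurable.comp (hfar m hm))
  have hnorm : ∀ (n m : ℕ) (ω : Ω), ‖Z n ω * (starRingEnd ℂ) (Z m ω)‖ ≤ 1 := by
    intro n m ω
    rw [norm_mul, RCLike.norm_conj]
    have := mul_le_mul (hZ1 n ω) (hZ1 m ω) (norm_nonneg _) zero_le_one
    simpa using this
  have hinner : ∀ m ∈ Ioc X N, ∑ n ∈ Ioc X N,
      ‖∫ ω, (Z n ω * (starRingEnd ℂ) (Z m ω)) *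
        ee (a * (Real.exp n - Real.exp m) * ξ ω) ∂P‖ ≤ N * ρ ^ K + K * B := by
    intro m hm
    set U : Finset ℕ := (range K).biUnion fun k =>
      RP.bad β ε (lam * a) (lam * a * Real.exp m) X N ((k + 1) * l) l with hU
    have hUc : (U.card : ℝ) ≤ K * B := by
      have h1 : U.card ≤ ∑ k ∈ range K,
        (RP.bad β ε (lam * a) (lam * a * Real.exp m) X N ((k + 1) * l) l).card := card_biUnion_le
      have h2 : (U.card : ℝ) ≤ ∑ k ∈ range K,
        ((RP.bad β ε (lam * a) (lam * a * Real.exp m) X N ((k + 1) * l) l).card : ℝ) := by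
        exact_mod_cast h1
      refine h2.trans ?_
      calc _ ≤ ∑ k ∈ range K, B := by
            refine sum_le_sum fun k hk => ?_
            rw [mem_range] at hk
            refine hcard β ε Cc θ d hβ hθ hW (lam * a) (mul_ne_zero hlam ha) δ hδ hδ1 X N
              ((k + 1) * l) l hN (Nat.le_mul_of_pos_left l (Nat.succ_pos k)) hCl ?_ _
            refine le_trans ?_ hKl
            apply mul_le_mul_of_nonneg_right _ hlog
            push_cast
            apply mul_le_mul_of_nonneg_right _ (Nat.cast_nonneg l)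
            have : k + 1 ≤ K := hk
            exact_mod_cast this
        _ = K * B := by simp
    have hρK : 0 ≤ ρ ^ K := pow_nonneg hρ K
    calc ∑ n ∈ Ioc X N, ‖∫ ω, (Z n ω * (starRingEnd ℂ) (Z m ω)) *
          ee (a * (Real.exp n - Real.exp m) * ξ ω) ∂P‖
        ≤ ∑ n ∈ Ioc X N, (ρ ^ K + if n ∈ U then (1 : ℝ) else 0) := by
          refine sum_le_sum fun n hn => ?_
          by_cases hnU : n ∈ U
          · rw [if_pos hnU]
            have h3 := norm_integral_le_of_norm_le_const (μ := P)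
              (f := fun ω => (Z n ω * (starRingEnd ℂ) (Z m ω)) *
                ee (a * (Real.exp n - Real.exp m) * ξ ω)) (C := 1)
              (Eventually.of_forall fun ω => by
                rw [norm_mul, norm_ee, mul_one]
                exact hnorm n m ω)
            have h4 : ‖∫ ω, (Z n ω * (starRingEnd ℂ) (Z m ω)) *
                ee (a * (Real.exp n - Real.exp m) * ξ ω) ∂P‖ ≤ 1 := by simpa using h3
            linarith
          · rw [if_neg hnU, add_zero]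
            refine small_of_good hD hβ a X N K l n m hn ?_ _ (hfar2 n hn m hm) (hnorm n m)
            intro k hk hmem
            apply hnU
            rw [hU, mem_biUnion]
            exact ⟨k, mem_range.2 hk, hmem⟩
      _ = (Ioc X N).card * ρ ^ K + ∑ n ∈ Ioc X N, (if n ∈ U then (1 : ℝ) else 0) := by
          rw [sum_add_distrib, sum_const, nsmul_eq_mul]
      _ ≤ N * ρ ^ K + K * B := by
          apply add_le_add
          · exact mul_le_mul_of_nonneg_right hcI hρK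
          · refine le_trans ?_ hUc
            rw [← sum_filter, sum_const, nsmul_eq_mul, mul_one]
            have : ((Ioc X N).filter fun n => n ∈ U) ⊆ U := fun x hx => (mem_filter.1 hx).2
            exact_mod_cast card_le_card this
  calc ∑ m ∈ Ioc X N, ∑ n ∈ Ioc X N, ‖∫ ω, (Z n ω * (starRingEnd ℂ) (Z m ω)) *
        ee (a * (Real.exp n - Real.exp m) * ξ ω) ∂P‖
      ≤ ∑ m ∈ Ioc X N, (N * ρ ^ K + K * B) := sum_le_sum hinner
    _ = (Ioc X N).card * (N * ρ ^ K + K * B) := by rw [sum_const, nsmul_eq_mul]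
    _ ≤ N * (N * ρ ^ K + K * B) := by
        apply mul_le_mul_of_nonneg_right hcI
        positivity

end Pool.Agent.R739.RW
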