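import Mathlib
import Pool.Agent.R739.RW.MomZ
import Pool.Agent.R739.RP.PBlk

/-!
# Almost sure convergence of the Weyl averages with weights depending on the far digits
-/

set_option autoImplicit false

open Finset Filter Topology MeasureTheory
open scoped Real

namespace Pool.Agent.R739.RW

open Pool.Agent.R739.RD hiding mom_NN ae_NN ae_weyl moment Dec
open Pool.Agent.R739.RP hiding mom_NN ae_NN ae_weyl moment Dec
open Pool.Agent.H534R3.UDist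

/-- the second moments at the sampling points -/
theorem mom_NN {Ω : Type} [MeasurableSpace Ω] (P : Measure Ω)
    [IsProbabilityMeasure P] (D : ℕ → Ω → ℝ) (hDm : ∀ j, Measurable (D j)) (ξ : Ω → ℝ)
    (hξ : Measurable ξ) (β ε lam ρ Cc θ : ℝ) (d : ℕ)
    (hβ : 1 < β) (hCc : 1 ≤ Cc) (hθ0 : 0 < θ) (hθ1 : θ < 1) (hW : Wn β ε Cc θ d)
    (hlam : lam ≠ 0) (hρ0 : 0 ≤ ρ) (hρ1 : ρ < 1) (hD : DecZ P D ξ β ε lam ρ) (κ : ℝ) (hκ : 0 < κ)
    (Z : ℕ → Ω → ℂ) (hZ : ∀ n : ℕ, Measurable[Far D (κ * n)] (Z n))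
    (hZ1 : ∀ n ω, ‖Z n ω‖ ≤ 1) (a : ℝ) (ha : a ≠ 0) (q : ℕ) (hq : 1 ≤ q) :
    ∃ C : ℝ, 0 < C ∧ ∀ᶠ i : ℕ in atTop,
      ∫ ω, (‖TT (fun n => Z n ω) a (NN q i / q) (NN q i) (ξ ω)‖ / NN q i) ^ 2 ∂P ≤ C * (1 / (i : ℝ) ^ 2) := by
  obtain ⟨A, hA, hmom⟩ := moment
  obtain ⟨G, hG1, hG⟩ := choose_l Cc θ d hCc hθ0 hθ1
  have hq0 : (0 : ℝ) < q := by exact_mod_cast hq
  have hq1 : (1 : ℝ) ≤ q := by exact_mod_cast hq
  obtain ⟨B, hB⟩ : ∃ B : ℝ, B = (G + 1) * β := ⟨_, rfl⟩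
  have hB1 : 1 ≤ B := by
    rw [hB]
    nlinarith
  have hB0 : 0 < B := by linarith
  obtain ⟨κ', hκ'⟩ : ∃ κ' : ℝ, κ' = min κ 1 := ⟨_, rfl⟩
  have hκ0 : 0 < κ' := by
    rw [hκ']
    exact lt_min hκ one_pos
  have hκκ : κ' ≤ κ := by
    rw [hκ']
    exact min_le_left _ _
  have hκ1 : κ' ≤ 1 := by
    rw [hκ']
    exact min_le_right _ _
  obtain ⟨C1, hC1⟩ : ∃ C1 : ℝ, C1 = |Real.log (|lam * a|)| + 1 := ⟨_, rfl⟩
  have hC10 : 0 < C1 := by
    rw [hC1]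
    positivity
  obtain ⟨c, hc⟩ : ∃ c : ℝ, c = κ' ^ 2 / (163840 * B ^ 2 * q ^ 3) := ⟨_, rfl⟩
  have hc0 : 0 < c := by
    rw [hc]
    positivity
  obtain ⟨r, hr⟩ : ∃ r : ℝ, r = max ρ (Real.exp (-c)) := ⟨_, rfl⟩
  have hrρ : ρ ≤ r := by rw [hr]; exact le_max_left _ _
  have hrc : Real.exp (-c) ≤ r := by rw [hr]; exact le_max_right _ _
  have hr0 : 0 ≤ r := hρ0.trans hrρ
  have hr1 : r < 1 := by
    rw [hr]
    exact max_lt hρ1 (by rw [Real.exp_lt_one_iff]; linarith)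
  obtain ⟨C2, hC2, hgeo⟩ := geom_bound r hr0 hr1
  obtain ⟨C3, hC3⟩ : ∃ C3 : ℝ, C3 = 1 + 2 * B * q * A * (1 + C1) / κ' := ⟨_, rfl⟩
  have hC30 : 0 < C3 := by
    rw [hC3]
    positivity
  refine ⟨C3 * C2, by positivity, ?_⟩
  filter_upwards [NN_large q hq ((2 * q * B + 2 * q) / κ'), eventually_ge_atTop (2 * q),
    eventually_ge_atTop 1] with i hi hi2 hi1
  set N : ℕ := NN q i with hN
  set K : ℕ := KK i with hK
  have hN1 : 1 ≤ N := one_le_NN q i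
  have hN1' : (1 : ℝ) ≤ N := by exact_mod_cast hN1
  have hN0 : (0 : ℝ) < N := by linarith
  have hK2 : 2 ≤ K := KK_two i hi1
  have hKfour : (K : ℝ) ^ 4 ≤ 16 * i := KK_four i hi1
  have hKpow : i ≤ K ^ 4 := KK_pow i
  have hlogNN : (i : ℝ) / q - 1 ≤ Real.log N := log_NN_ge q i
  clear_value N K
  have hK2' : (2 : ℝ) ≤ K := by exact_mod_cast hK2
  have hK0 : (0 : ℝ) < K := by linarith
  have hi1' : (1 : ℝ) ≤ i := by exact_mod_cast hi1
  have hi2' : 2 * (q : ℝ) ≤ i := by exact_mod_cast hi2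
  obtain ⟨δ, hδ⟩ : ∃ δ : ℝ, δ = κ' / (2 * B * q * K) := ⟨_, rfl⟩
  have hδ0 : 0 < δ := by
    rw [hδ]
    positivity
  have hK1' : (1 : ℝ) ≤ K := by linarith
  have hδ1 : δ ≤ 1 := by
    rw [hδ, div_le_one (by positivity)]
    have h1 : (1 : ℝ) ≤ B * q * K := by
      have h2 : 1 * 1 ≤ B * q := mul_le_mul hB1 hq1 zero_le_one hB0.le
      have h3 : 1 * 1 ≤ B * q * K := mul_le_mul (by linarith) hK1' zero_le_one (by positivity)
      linarith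
    linarith
  obtain ⟨l, hl⟩ : ∃ l : ℕ, l = ⌈G * (δ * N + 1)⌉₊ := ⟨_, rfl⟩
  have hx0 : 0 ≤ δ * N := by positivity
  have hG0 : 0 < G := by linarith
  have hl2 : G * (δ * N + 1) ≤ l := by
    rw [hl]
    exact Nat.le_ceil _
  have hl3 : (l : ℝ) < G * (δ * N + 1) + 1 := by
    rw [hl]
    exact Nat.ceil_lt_add_one (by positivity)
  have hCl := hG (δ * N) hx0 l hl2
  have hX : (N : ℝ) / q - 1 ≤ ((N / q : ℕ) : ℝ) := by
    have h1 : N < q * (N / q + 1) := Nat.lt_mul_div_succ N (by omega)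
    have h2 : (N : ℝ) < q * ((N / q : ℕ) + 1) := by exact_mod_cast h1
    rw [sub_le_iff_le_add, div_le_iff₀ hq0, mul_comm]
    exact h2.le
  have hβ0 : 0 < β := by linarith
  have hKβ : K * l * β ≤ κ' * ((N / q : ℕ) : ℝ) := by
    have h0 : κ' * ((N : ℝ) / q - 1) ≤ κ' * ((N / q : ℕ) : ℝ) := mul_le_mul_of_nonneg_left hX hκ0.le
    refine le_trans ?_ h0
    have h2 : (K : ℝ) * l * β ≤ K * ((G + 1) * (δ * N + 1)) * β := by
      apply mul_le_mul_of_nonneg_right _ hβ0.le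
      apply mul_le_mul_of_nonneg_left _ hK0.le
      have : (G + 1) * (δ * N + 1) = G * (δ * N + 1) + (δ * N + 1) := by ring
      linarith
    have h3 : K * ((G + 1) * (δ * N + 1)) * β = K * B * δ * N + K * B := by
      rw [hB]
      ring
    have h3' : K * B * δ * N = κ' * ((1 / 2) * (N / q)) := by
      rw [hδ]
      field_simp
    have h4 : K * B + 1 ≤ κ' * ((1 / 2) * (N / q : ℝ)) := by
      have h5 : 2 * q * (K * B + 1) ≤ κ' * (N : ℝ) := by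
        have h6 : 0 ≤ 2 * (q : ℝ) * K + 2 * q * B := by positivity
        have h7 : 2 * q * (K * B + 1) + (2 * (q : ℝ) * K + 2 * q * B) =
          κ' * ((2 * q * B + 2 * q) / κ' * K + (2 * q * B + 2 * q) / κ') := by
          field_simp
          ring
        have h8 := mul_le_mul_of_nonneg_left hi hκ0.le
        linarith
      have e2 : κ' * ((1 / 2) * (N / q : ℝ)) = κ' * N / (2 * q) := by field_simp
      rw [e2, le_div_iff₀ (by positivity)]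
      linarith
    have h9 : κ' * ((N : ℝ) / q - 1) = κ' * ((1 / 2) * (N / q : ℝ)) + κ' * ((1 / 2) * (N / q : ℝ))
      - κ' := by ring
    linarith
  have hXnn : (0 : ℝ) ≤ ((N / q : ℕ) : ℝ) := Nat.cast_nonneg _
  have hKl : K * l * Real.log β ≤ ((N / q : ℕ) : ℝ) := by
    have hlog : Real.log β ≤ β := by
      have := Real.log_le_sub_one_of_pos hβ0
      linarith
    have h1 : (K : ℝ) * l * Real.log β ≤ K * l * β :=
      mul_le_mul_of_nonneg_left hlog (by positivity)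
    have h2 : κ' * ((N / q : ℕ) : ℝ) ≤ 1 * ((N / q : ℕ) : ℝ) := mul_le_mul_of_nonneg_right hκ1 hXnn
    linarith
  have hKκ : (K : ℝ) * l ≤ κ * ((N / q : ℕ) : ℝ) := by
    have h1 : (K : ℝ) * l ≤ K * l * β := le_mul_of_one_le_right (by positivity) hβ.le
    have h2 : κ' * ((N / q : ℕ) : ℝ) ≤ κ * ((N / q : ℕ) : ℝ) :=
      mul_le_mul_of_nonneg_right hκκ hXnn
    linarith
  have hm := hmom P D ξ hDm hξ β ε lam ρ Cc θ d hβ hθ0 hW hlam hρ0 hD κ hκ Z hZ hZ1 a ha δ hδ0 hδ1 (N / q) N K l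
    hN1 hCl hKl hKκ
  rw [← hC1] at hm
  have hlogN : (K : ℝ) ^ 4 / (32 * q) ≤ Real.log N := by
    have h3 : (i : ℝ) / (2 * q) ≤ i / q - 1 := by
      have e1 : (i : ℝ) / q = 2 * (i / (2 * q)) := by field_simp
      have e2 : 1 ≤ (i : ℝ) / (2 * q) := by
        rw [le_div_iff₀ (by positivity)]
        linarith
      linarith
    have h4 : (K : ℝ) ^ 4 / (32 * q) ≤ i / (2 * q) := by
      rw [div_le_div_iff₀ (by positivity) (by positivity)]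
      exact aux_four _ _ _ hKfour hq0
    linarith
  have hK4 : (K : ℝ) ≤ (K : ℝ) ^ 2 := le_self_pow₀ hK1' (by norm_num)
  have hK5 : (K : ℝ) ≤ (K : ℝ) ^ 4 := le_self_pow₀ hK1' (by norm_num)
  -- the first exponential
  have hx1 : (N : ℝ) ^ (-(δ ^ 2 / 1280)) ≤ r ^ K := by
    have e1 : (N : ℝ) ^ (-(δ ^ 2 / 1280)) = Real.exp (Real.log N * (-(δ ^ 2 / 1280))) :=
      Real.rpow_def_of_pos hN0 _
    have e2 : Real.exp (-c) ^ K = Real.exp (K * (-c)) := (Real.exp_nat_mul _ _).symm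
    have h1 : Real.exp (-c) ^ K ≤ r ^ K := pow_le_pow_left₀ (Real.exp_pos _).le hrc K
    refine le_trans ?_ h1
    rw [e1, e2]
    apply Real.exp_le_exp.2
    have h2 : K * c ≤ Real.log N * (δ ^ 2 / 1280) := by
      calc K * c ≤ (K : ℝ) ^ 2 * c := mul_le_mul_of_nonneg_right hK4 hc0.le
        _ = (K : ℝ) ^ 4 / (32 * q) * (δ ^ 2 / 1280) := by
            rw [hc, hδ]
            field_simp
            norm_num
        _ ≤ _ := mul_le_mul_of_nonneg_right hlogN (by positivity)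
    linarith
  have hx2 : 1 / (N : ℝ) ≤ r ^ K := by
    have e1 : 1 / (N : ℝ) = Real.exp (-Real.log N) := by
      rw [Real.exp_neg, Real.exp_log hN0, one_div]
    have e2 : Real.exp (-c) ^ K = Real.exp (K * (-c)) := (Real.exp_nat_mul _ _).symm
    have h1 : Real.exp (-c) ^ K ≤ r ^ K := pow_le_pow_left₀ (Real.exp_pos _).le hrc K
    refine le_trans ?_ h1
    rw [e1, e2]
    apply Real.exp_le_exp.2
    have h2 : K * c ≤ Real.log N := by
      refine le_trans ?_ hlogN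
      have h3 : c ≤ 1 / (32 * q) := by
        have h0 : κ' ^ 2 ≤ 1 := pow_le_one₀ hκ0.le hκ1
        have h1' : κ' ^ 2 / (163840 * B ^ 2 * q ^ 3) ≤ 1 / (163840 * B ^ 2 * q ^ 3) :=
          div_le_div_of_nonneg_right h0 (by positivity)
        rw [hc]
        refine h1'.trans ?_
        apply one_div_le_one_div_of_le (by positivity)
        have h4 : (1 : ℝ) ≤ B ^ 2 := one_le_pow₀ hB1
        have h5 : (q : ℝ) ≤ q ^ 3 := le_self_pow₀ hq1 (by norm_num)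
        have h6 : (q : ℝ) ^ 3 ≤ B ^ 2 * q ^ 3 := le_mul_of_one_le_left (by positivity) h4
        linarith
      calc K * c ≤ K * (1 / (32 * q)) := mul_le_mul_of_nonneg_left h3 hK0.le
        _ ≤ (K : ℝ) ^ 4 * (1 / (32 * q)) := mul_le_mul_of_nonneg_right hK5 (by positivity)
        _ = _ := by ring
    linarith
  have hx3 : ρ ^ K ≤ r ^ K := pow_le_pow_left₀ hρ0 hrρ K
  have hrK : 0 ≤ r ^ K := pow_nonneg hr0 K
  -- the normalised second moment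
  have e0 : ∫ ω, (‖TT (fun n => Z n ω) a (N / q) N (ξ ω)‖ / N) ^ 2 ∂P =
      (∫ ω, ‖TT (fun n => Z n ω) a (N / q) N (ξ ω)‖ ^ 2 ∂P) / N ^ 2 := by
    simp only [div_pow]
    rw [integral_div]
  rw [e0, div_le_iff₀ (by positivity)]
  refine hm.trans ?_
  have hpow : (N : ℝ) ^ (1 - δ ^ 2 / 1280) = N * (N : ℝ) ^ (-(δ ^ 2 / 1280)) := by
    rw [sub_eq_add_neg, Real.rpow_add hN0, Real.rpow_one]
  have h1 : (N : ℝ) ^ (1 - δ ^ 2 / 1280) ≤ N * r ^ K := by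
    rw [hpow]
    exact mul_le_mul_of_nonneg_left hx1 hN0.le
  have h2 : C1 ≤ C1 * (N * r ^ K) := by
    have : 1 ≤ N * r ^ K := by
      rw [div_le_iff₀ hN0] at hx2
      linarith
    exact le_mul_of_one_le_right hC10.le this
  have h3 : K * (A / δ * ((N : ℝ) ^ (1 - δ ^ 2 / 1280) + C1)) ≤
      2 * B * q * A * (1 + C1) / κ' * K ^ 2 * (N * r ^ K) := by
    have e1 : A / δ = 2 * B * q * A * K / κ' := by
      rw [hδ]
      field_simp
    rw [e1]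
    have h4 : (N : ℝ) ^ (1 - δ ^ 2 / 1280) + C1 ≤ (1 + C1) * (N * r ^ K) := by linarith
    calc K * (2 * B * q * A * K / κ' * ((N : ℝ) ^ (1 - δ ^ 2 / 1280) + C1))
        ≤ K * (2 * B * q * A * K / κ' * ((1 + C1) * (N * r ^ K))) := by
          apply mul_le_mul_of_nonneg_left _ hK0.le
          apply mul_le_mul_of_nonneg_left h4
          positivity
      _ = _ := by ring
  have h5 : N * ρ ^ K ≤ K ^ 2 * (N * r ^ K) := by
    have h6 : N * ρ ^ K ≤ N * r ^ K := mul_le_mul_of_nonneg_left hx3 hN0.le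
    have h7 : 0 ≤ N * r ^ K := by positivity
    have h8 : (1 : ℝ) ≤ K ^ 2 := one_le_pow₀ hK1'
    exact h6.trans (le_mul_of_one_le_left h7 h8)
  have h6 : N * ρ ^ K + K * (A / δ * ((N : ℝ) ^ (1 - δ ^ 2 / 1280) + C1)) ≤
      C3 * (K ^ 2 * r ^ K) * N := by
    calc _ ≤ K ^ 2 * (N * r ^ K) + 2 * B * q * A * (1 + C1) / κ' * K ^ 2 * (N * r ^ K) :=
          add_le_add h5 h3
      _ = _ := by rw [hC3]; ring
  have h7 : (K : ℝ) ^ 2 * r ^ K ≤ C2 * (1 / (i : ℝ) ^ 2) := by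
    have h8 := hgeo K
    have h9 : (i : ℝ) ≤ (K : ℝ) ^ 4 := by exact_mod_cast hKpow
    have h10 : (i : ℝ) ^ 2 ≤ (K : ℝ) ^ 8 := by
      have := pow_le_pow_left₀ (by positivity) h9 2
      calc _ ≤ ((K : ℝ) ^ 4) ^ 2 := this
        _ = _ := by ring
    have h11 : (i : ℝ) ^ 2 * ((K : ℝ) ^ 2 * r ^ K) ≤ C2 := by
      refine le_trans ?_ h8
      calc (i : ℝ) ^ 2 * ((K : ℝ) ^ 2 * r ^ K) ≤ (K : ℝ) ^ 8 * ((K : ℝ) ^ 2 * r ^ K) :=
            mul_le_mul_of_nonneg_right h10 (by positivity)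
        _ = _ := by ring
    rw [mul_one_div, le_div_iff₀ (by positivity)]
    linarith
  calc N * (N * ρ ^ K + K * (A / δ * ((N : ℝ) ^ (1 - δ ^ 2 / 1280) + C1)))
      ≤ N * (C3 * (K ^ 2 * r ^ K) * N) := mul_le_mul_of_nonneg_left h6 hN0.le
    _ = C3 * (K ^ 2 * r ^ K) * N ^ 2 := by ring
    _ ≤ C3 * (C2 * (1 / (i : ℝ) ^ 2)) * N ^ 2 := by
        apply mul_le_mul_of_nonneg_right _ (by positivity)
        exact mul_le_mul_of_nonneg_left h7 hC30.le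
    _ = _ := by ring

theorem ae_NN {Ω : Type} [MeasurableSpace Ω] (P : Measure Ω)
    [IsProbabilityMeasure P] (D : ℕ → Ω → ℝ) (hDm : ∀ j, Measurable (D j)) (ξ : Ω → ℝ)
    (hξ : Measurable ξ) (β ε lam ρ Cc θ : ℝ) (d : ℕ)
    (hβ : 1 < β) (hCc : 1 ≤ Cc) (hθ0 : 0 < θ) (hθ1 : θ < 1) (hW : Wn β ε Cc θ d)
    (hlam : lam ≠ 0) (hρ0 : 0 ≤ ρ) (hρ1 : ρ < 1) (hD : DecZ P D ξ β ε lam ρ) (κ : ℝ) (hκ : 0 < κ)
    (Z : ℕ → Ω → ℂ) (hZ : ∀ n : ℕ, Measurable[Far D (κ * n)] (Z n))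
    (hZ1 : ∀ n ω, ‖Z n ω‖ ≤ 1) (a : ℝ) (ha : a ≠ 0) (q : ℕ) (hq : 1 ≤ q) :
    ∀ᵐ ω ∂P, Tendsto (fun i : ℕ => ‖TT (fun n => Z n ω) a (NN q i / q) (NN q i) (ξ ω)‖ / NN q i) atTop (𝓝 0) := by
  obtain ⟨C, hC, hev⟩ := mom_NN P D hDm ξ hξ β ε lam ρ Cc θ d hβ hCc hθ0 hθ1 hW hlam hρ0 hρ1 hD κ hκ Z hZ
    hZ1 a ha q hq
  rw [eventually_atTop] at hev
  obtain ⟨i0, hi0⟩ := hev
  have hmeas : ∀ i : ℕ, Measurable fun ω =>
      ‖TT (fun n => Z n ω) a (NN q i / q) (NN q i) (ξ ω)‖ / (NN q i : ℝ) := fun i =>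
    (measurable_TTZ Z (fun n => (hZ n).mono (far_le D hDm _) le_rfl) ξ hξ a _ _).norm.div_const _
  have key : ∀ᵐ ω ∂P, Tendsto (fun i : ℕ =>
      ‖TT (fun n => Z n ω) a (NN q (i + i0) / q) (NN q (i + i0)) (ξ ω)‖ / NN q (i + i0)) atTop (𝓝 0) := by
    refine ae_tendsto_zero (fun i ω =>
      ‖TT (fun n => Z n ω) a (NN q (i + i0) / q) (NN q (i + i0)) (ξ ω)‖ / NN q (i + i0))
      (fun i => hmeas (i + i0)) (fun i => ?_) ?_
    · refine Integrable.of_bound ((hmeas (i + i0)).pow_const 2).aestronglyMeasurable 1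
        (Eventually.of_forall fun ω => ?_)
      have h1 := norm_TT_le (fun n => Z n ω) (fun n => hZ1 n ω) a (NN q (i + i0) / q)
        (NN q (i + i0)) (ξ ω)
      have h0 : (0 : ℝ) < NN q (i + i0) := by exact_mod_cast one_le_NN q (i + i0)
      have h2 : ((NN q (i + i0) - NN q (i + i0) / q : ℕ) : ℝ) ≤ NN q (i + i0) := by
        exact_mod_cast Nat.sub_le _ _
      rw [Real.norm_eq_abs, abs_of_nonneg (by positivity)]
      have h3 : ‖TT (fun n => Z n ω) a (NN q (i + i0) / q) (NN q (i + i0)) (ξ ω)‖ / NN q (i + i0) ≤ 1 := by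
        rw [div_le_one h0]
        exact h1.trans h2
      have h4 : 0 ≤ ‖TT (fun n => Z n ω) a (NN q (i + i0) / q) (NN q (i + i0)) (ξ ω)‖ / NN q (i + i0) := by
        positivity
      nlinarith
    · refine Summable.of_nonneg_of_le (fun i => integral_nonneg fun ω => sq_nonneg _)
        (fun i => hi0 (i + i0) (by omega)) ?_
      have h2 : Summable (fun n : ℕ => C * (1 / (n : ℝ) ^ 2)) :=
        (Real.summable_one_div_nat_pow.mpr one_lt_two).mul_left C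
      exact (summable_nat_add_iff (f := fun n : ℕ => C * (1 / (n : ℝ) ^ 2)) i0).mpr h2
  filter_upwards [key] with ω hω
  exact (tendsto_add_atTop_iff_nat
    (f := fun i : ℕ => ‖TT (fun n => Z n ω) a (NN q i / q) (NN q i) (ξ ω)‖ / NN q i) i0).mp hω

/-- **The Weyl averages tend to zero almost surely.** -/
theorem ae_weyl {Ω : Type} [MeasurableSpace Ω] (P : Measure Ω)
    [IsProbabilityMeasure P] (D : ℕ → Ω → ℝ) (hDm : ∀ j, Measurable (D j)) (ξ : Ω → ℝ)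
    (hξ : Measurable ξ) (β ε lam ρ Cc θ : ℝ) (d : ℕ)
    (hβ : 1 < β) (hCc : 1 ≤ Cc) (hθ0 : 0 < θ) (hθ1 : θ < 1) (hW : Wn β ε Cc θ d)
    (hlam : lam ≠ 0) (hρ0 : 0 ≤ ρ) (hρ1 : ρ < 1) (hD : DecZ P D ξ β ε lam ρ) (κ : ℝ) (hκ : 0 < κ)
    (Z : ℕ → Ω → ℂ) (hZ : ∀ n : ℕ, Measurable[Far D (κ * n)] (Z n))
    (hZ1 : ∀ n ω, ‖Z n ω‖ ≤ 1) (a : ℝ) (ha : a ≠ 0) :
    ∀ᵐ ω ∂P, Tendsto (fun N : ℕ => ‖TT (fun n => Z n ω) a 0 N (ξ ω)‖ / N) atTop (𝓝 0) := by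
  have h1 : ∀ q : ℕ, ∀ᵐ ω ∂P, 1 ≤ q →
      Tendsto (fun i : ℕ => ‖TT (fun n => Z n ω) a (NN q i / q) (NN q i) (ξ ω)‖ / NN q i) atTop (𝓝 0) := by
    intro q
    by_cases hq : 1 ≤ q
    · filter_upwards [ae_NN P D hDm ξ hξ β ε lam ρ Cc θ d hβ hCc hθ0 hθ1 hW hlam hρ0 hρ1 hD κ hκ Z hZ hZ1 a ha q
        hq] with ω hω _ using hω
    · exact Eventually.of_forall fun ω h => absurd h hq
  filter_upwards [ae_all_iff.2 h1] with ω hω
  exact tendsto_of_NN (fun n => Z n ω) (fun n => hZ1 n ω) a (ξ ω) hω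

end Pool.Agent.R739.RW
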