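import Mathlib
import Pool.Agent.R739.RP.PDig
import Pool.Agent.R739.RW.MomZ

/-!
# Random digits in base `β`, with weights depending on the far digits
-/

set_option autoImplicit false

open Finset Filter Topology MeasureTheory ProbabilityTheory
open scoped Real

namespace Pool.Agent.R739.RW

open Pool.Agent.R739.RD hiding bad card_bad small_of_good mom_le moment dec_of_atoms dec_int
  dec_real rho_lt rho_nonneg
open Pool.Agent.R739.RP hiding bad card_bad dec_of_atoms dec_int dec_real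
open Pool.Agent.H534R3.UDist

/-- decay of the weighted characteristic function from pairs of atoms of the digits -/
theorem decZ_of_atoms {Ω : Type} [MeasurableSpace Ω] (P : Measure Ω) [IsProbabilityMeasure P]
    (β ε : ℝ) (hε : 0 < ε) (D : ℕ → Ω → ℝ) (hD : ∀ j, Measurable (D j))
    (hI : iIndepFun D P) (ξ : Ω → ℝ)
    (hs : ∀ ω, Tendsto (fun n => ∑ j ∈ range n, D j ω / β ^ (j + 1)) atTop (𝓝 (ξ ω)))
    (c : ℝ) (hc : 0 < c) (H : ℕ) (hH : 1 ≤ H) (lam : ℝ)
    (hat : ∀ j, ∃ (x l : ℝ) (h : ℤ), l ≠ 0 ∧ (h : ℝ) * l = lam ∧ |(h : ℝ)| ≤ H ∧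
      c ≤ P.real {ω | D j ω = x} ∧ c ≤ P.real {ω | D j ω = x + l}) :
    DecZ P D ξ β ε lam (1 - 4 * c * (ε / H) ^ 2) := by
  intro t k S hSk hS Z hZ hZ1
  have hH0 : (0 : ℝ) < H := by exact_mod_cast hH
  have h1 := chi_le_Z P D hD hI (fun j x => x / β ^ (j + 1))
    (fun j => measurable_id.div_const _) ξ hs t k S hSk Z hZ hZ1
  refine h1.trans ?_
  rw [← Finset.prod_const]
  refine Finset.prod_le_prod (fun j _ => norm_nonneg _) fun j hj => ?_
  obtain ⟨x, l, h, hl, hhl, hh, h2, h3⟩ := hat j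
  have hmap : ∀ y : ℝ, (P.map (D j)).real {y} = P.real {ω | D j ω = y} := by
    intro y
    rw [map_measureReal_apply (hD j) (measurableSet_singleton y)]
    rfl
  have : IsProbabilityMeasure (P.map (D j)) := Measure.isProbabilityMeasure_map (hD j).aemeasurable
  have h4 := two_atoms (P.map (D j)) x l c (t / β ^ (j + 1)) hl hc
    (by rw [hmap]; exact h2) (by rw [hmap]; exact h3)
  have h5 : ∫ ω, ee (t * (D j ω / β ^ (j + 1))) ∂P =
      ∫ y, ee (t / β ^ (j + 1) * y) ∂(P.map (D j)) := by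
    have hm : AEStronglyMeasurable (fun y : ℝ => ee (t / β ^ (j + 1) * y)) (P.map (D j)) :=
      (measurable_ee.comp (measurable_id.const_mul _)).aestronglyMeasurable
    rw [integral_map (hD j).aemeasurable hm]
    refine integral_congr_ae (Eventually.of_forall fun ω => ?_)
    show ee _ = ee _
    congr 1
    ring
  rw [h5]
  refine h4.trans ?_
  have h6 := hS j hj
  have h7 : lam * t / β ^ (j + 1) = h * (t / β ^ (j + 1) * l) := by
    rw [← hhl]
    ring
  rw [h7] at h6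
  have h8 := h6.trans (dz_int_mul h (t / β ^ (j + 1) * l))
  have h9 : ε ≤ H * dz (t / β ^ (j + 1) * l) :=
    h8.trans (mul_le_mul_of_nonneg_right hh (dz_nonneg _))
  set d := dz (t / β ^ (j + 1) * l) with hd
  have hd0 : 0 ≤ d := dz_nonneg _
  have h10 : ε / H ≤ d := by
    rw [div_le_iff₀ hH0]
    linarith
  have h11 : (ε / H) ^ 2 ≤ d ^ 2 := pow_le_pow_left₀ (by positivity) h10 2
  have h13 : 4 * c * (ε / H) ^ 2 ≤ 4 * c * d ^ 2 :=
    mul_le_mul_of_nonneg_left h11 (by positivity)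
  linarith

/-- integer digits -/
theorem decZ_int {Ω : Type} [MeasurableSpace Ω] (P : Measure Ω) [IsProbabilityMeasure P]
    (β ε : ℝ) (hε : 0 < ε) (hε2 : ε ≤ 1 / 2) (M : ℕ) (c : ℝ) (hc : 0 < c) (D : ℕ → Ω → ℝ)
    (hD : ∀ j, Measurable (D j)) (hI : iIndepFun D P) (hZD : ∀ j ω, ∃ d : ℤ, D j ω = d)
    (hM : ∀ j ω, |D j ω| ≤ M) (hcD : ∀ j d, P.real {ω | D j ω = d} ≤ 1 - c)
    (ξ : Ω → ℝ)
    (hs : ∀ ω, Tendsto (fun n => ∑ j ∈ range n, D j ω / β ^ (j + 1)) atTop (𝓝 (ξ ω))) :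
    ∃ lam ρ : ℝ, lam ≠ 0 ∧ 0 ≤ ρ ∧ ρ < 1 ∧ DecZ P D ξ β ε lam ρ := by
  classical
  set F : Finset ℝ := (Icc (-(M : ℤ)) M).image (fun n : ℤ => (n : ℝ)) with hF
  have hFm : ∀ j ω, D j ω ∈ F := fun j ω => by
    obtain ⟨d, hd⟩ := hZD j ω
    rw [hF, mem_image]
    refine ⟨d, ?_, hd.symm⟩
    have h1 := hM j ω
    rw [hd] at h1
    have h2 : |d| ≤ (M : ℤ) := by exact_mod_cast h1
    rw [mem_Icc]
    exact abs_le.1 h2
  have hFne : F.Nonempty := by
    rw [hF, image_nonempty]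
    exact ⟨0, by rw [mem_Icc]; constructor <;> omega⟩
  have hFc : (0 : ℝ) < F.card := by exact_mod_cast hFne.card_pos
  have hFc1 : (1 : ℝ) ≤ F.card := by exact_mod_cast hFne.card_pos
  have hc1 : c ≤ 1 := by
    have h1 := hcD 0 0
    have h2 : 0 ≤ P.real {ω | D 0 ω = 0} := measureReal_nonneg
    linarith
  set H : ℕ := (2 * M).factorial with hH
  have hH1 : 1 ≤ H := Nat.factorial_pos _
  have hH1' : (1 : ℝ) ≤ H := by exact_mod_cast hH1
  refine ⟨H, 1 - 4 * (c / F.card) * (ε / H) ^ 2, by positivity, ?_, ?_, ?_⟩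
  · apply RP.rho_nonneg _ _ _ (by positivity) _ hε hε2 hH1'
    exact (div_le_self hc.le hFc1).trans hc1
  · exact RP.rho_lt _ _ _ (by positivity) hε (by linarith)
  · refine decZ_of_atoms P β ε hε D hD hI ξ hs (c / F.card) (by positivity) H hH1 H fun j => ?_
    obtain ⟨x', hx', y', hy', hxy, h1, h2⟩ := atoms P (D j) (hD j) F (hFm j) c hc (hcD j)
    rw [hF, mem_image] at hx' hy'
    obtain ⟨x, hx, rfl⟩ := hx'
    obtain ⟨y, hy, rfl⟩ := hy'
    rw [mem_Icc] at hx hy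
    have hxy' : x ≠ y := fun h => hxy (by rw [h])
    have hl : y - x ≠ 0 := sub_ne_zero.2 hxy'.symm
    have hdvd : (y - x) ∣ (H : ℤ) := by
      rw [← Int.natAbs_dvd_natAbs]
      rw [Int.natAbs_natCast, hH]
      apply Nat.dvd_factorial
      · exact Int.natAbs_pos.2 hl
      · omega
    obtain ⟨h, hh⟩ := hdvd
    have hHi : (1 : ℤ) ≤ H := by exact_mod_cast hH1
    refine ⟨x, ((y - x : ℤ) : ℝ), h, by exact_mod_cast hl, ?_, ?_, h1, ?_⟩
    · rw [mul_comm]
      exact_mod_cast hh.symm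
    · have h3 : |h| ≤ H := by
        have h4 : h ∣ (H : ℤ) := ⟨y - x, by rw [hh]; ring⟩
        have := Int.le_of_dvd (by omega) ((abs_dvd h (H : ℤ)).2 h4)
        exact this
      have : ((|h| : ℤ) : ℝ) ≤ ((H : ℤ) : ℝ) := by exact_mod_cast h3
      push_cast at this
      exact this
    · have e : (x : ℝ) + ((y - x : ℤ) : ℝ) = y := by push_cast; ring
      rw [e]
      exact h2

/-- identically distributed digits with two atoms -/
theorem decZ_real {Ω : Type} [MeasurableSpace Ω] (P : Measure Ω) [IsProbabilityMeasure P]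
    (β ε : ℝ) (hε : 0 < ε) (hε2 : ε ≤ 1 / 2) (D : ℕ → Ω → ℝ)
    (hD : ∀ j, Measurable (D j))
    (hI : iIndepFun D P) (hid : ∀ j, IdentDistrib (D j) (D 0) P P)
    (x y : ℝ) (hxy : x ≠ y) (hx : 0 < P.real {ω | D 0 ω = x}) (hy : 0 < P.real {ω | D 0 ω = y})
    (ξ : Ω → ℝ)
    (hs : ∀ ω, Tendsto (fun n => ∑ j ∈ range n, D j ω / β ^ (j + 1)) atTop
      (𝓝 (ξ ω))) :
    ∃ lam ρ : ℝ, lam ≠ 0 ∧ 0 ≤ ρ ∧ ρ < 1 ∧ DecZ P D ξ β ε lam ρ := by
  set c : ℝ := min (P.real {ω | D 0 ω = x}) (P.real {ω | D 0 ω = y}) with hc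
  have hc0 : 0 < c := lt_min hx hy
  have hc1 : c ≤ 1 := (min_le_left _ _).trans measureReal_le_one
  refine ⟨y - x, 1 - 4 * c * (ε / ((1 : ℕ) : ℝ)) ^ 2, sub_ne_zero.2 hxy.symm, ?_, ?_, ?_⟩
  · exact RP.rho_nonneg _ _ _ hc0 hc1 hε hε2 (by norm_num)
  · exact RP.rho_lt _ _ _ hc0 hε (by norm_num)
  · refine decZ_of_atoms P β ε hε D hD hI ξ hs c hc0 1 le_rfl (y - x)
      fun j => ⟨x, y - x, 1, sub_ne_zero.2 hxy.symm, by simp, by simp, ?_, ?_⟩
    · have h3 := (hid j).measure_mem_eq (measurableSet_singleton x)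
      have h4 : P.real {ω | D j ω = x} = P.real {ω | D 0 ω = x} := by
        simp only [Measure.real]
        congr 1
      rw [h4]
      exact min_le_left _ _
    · have e : x + (y - x) = y := by ring
      rw [e]
      have h3 := (hid j).measure_mem_eq (measurableSet_singleton y)
      have h4 : P.real {ω | D j ω = y} = P.real {ω | D 0 ω = y} := by
        simp only [Measure.real]
        congr 1
      rw [h4]
      exact min_le_right _ _

end Pool.Agent.R739.RW
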