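import Mathlib
import Pool.Agent.R739.RW.DigZ
import Pool.Agent.R739.RW.BlkZ
import Pool.Agent.R739.RP.PFin

/-!
# Equidistribution of `η ξ e ^ n` with weights and shifts depending on the far digits
-/

set_option autoImplicit false

open Finset Filter Topology MeasureTheory ProbabilityTheory
open scoped Real

namespace Pool.Agent.R739.RW

open Pool.Agent.R739.RD hiding bad card_bad small_of_good mom_le moment dec_of_atoms dec_int
  dec_real rho_lt rho_nonneg summable_digits ae_weyl ae_NN mom_NN main_int main_real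
open Pool.Agent.R739.RP hiding bad card_bad dec_of_atoms dec_int dec_real ae_weyl ae_NN mom_NN
  main_int main_real
open Pool.Agent.H534R3.UDist Pool.Agent.H446R3.SK

/-- weighted averages of `f - ∫ f` -/
noncomputable def wav {m : ℕ} (z : ℕ → ℂ) (x : ℕ → Fin m → UnitAddCircle)
    (f : C(Fin m → UnitAddCircle, ℂ)) (N : ℕ) : ℂ :=
  (∑ n ∈ Icc 1 N, z n * (f (x n) - ∫ y, f y)) / (N : ℂ)

theorem weyl_torus_w {m : ℕ} (z : ℕ → ℂ) (hz : ∀ n, ‖z n‖ ≤ 1) (x : ℕ → Fin m → UnitAddCircle)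
    (h : ∀ k : Fin m → ℤ, k ≠ 0 →
      Tendsto (fun N : ℕ => (∑ n ∈ Icc 1 N, z n * mF k (x n)) / (N : ℂ)) atTop (𝓝 0))
    (f : C(Fin m → UnitAddCircle, ℂ)) :
    Tendsto (wav z x f) atTop (𝓝 0) := by
  refine cind (P := fun f => Tendsto (wav z x f) atTop (𝓝 0)) ?_ ?_ ?_ ?_ ?_ f
  · have : wav z x (0 : C(Fin m → UnitAddCircle, ℂ)) = fun _ => 0 := by
      funext N
      simp [wav]
    rw [this]
    exact tendsto_const_nhds
  · intro k
    by_cases hk : k = 0
    · subst hk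
      have h1 : ∀ y, mF (0 : Fin m → ℤ) y = 1 := fun y => by
        simp [mF, UnitAddTorus.mFourier_zero]
      have h2 : ∫ y : Fin m → UnitAddCircle, mF (0 : Fin m → ℤ) y = 1 := by
        simp only [h1]
        rw [integral_const]
        simp
      have h3 : wav z x (mF (0 : Fin m → ℤ)) = fun _ => 0 := by
        funext N
        unfold wav
        rw [h2]
        simp [h1]
      rw [h3]
      exact tendsto_const_nhds
    · refine (h k hk).congr fun N => ?_
      unfold wav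
      rw [integral_mF hk]
      simp
  · intro f g hf hg
    have h2 : ∫ y, (f + g : C(Fin m → UnitAddCircle, ℂ)) y = (∫ y, f y) + ∫ y, g y := by
      simp only [ContinuousMap.add_apply]
      refine integral_add ?_ ?_
      · exact f.continuous.integrable_of_hasCompactSupport (HasCompactSupport.of_compactSpace _)
      · exact g.continuous.integrable_of_hasCompactSupport (HasCompactSupport.of_compactSpace _)
    have h1 : wav z x (f + g : C(Fin m → UnitAddCircle, ℂ)) =
        fun N => wav z x f N + wav z x g N := by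
      funext N
      simp only [wav]
      rw [h2, ← add_div, ← sum_add_distrib]
      congr 1
      refine sum_congr rfl fun n _ => ?_
      rw [ContinuousMap.add_apply]
      ring
    rw [h1]
    simpa using hf.add hg
  · intro c f hf
    have h2 : ∫ y, (c • f : C(Fin m → UnitAddCircle, ℂ)) y = c * ∫ y, f y := by
      simp only [ContinuousMap.smul_apply, smul_eq_mul]
      exact integral_const_mul _ _
    have h1 : wav z x (c • f : C(Fin m → UnitAddCircle, ℂ)) = fun N => c * wav z x f N := by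
      funext N
      simp only [wav]
      rw [h2, ← mul_div_assoc, mul_sum]
      congr 1
      refine sum_congr rfl fun n _ => ?_
      rw [ContinuousMap.smul_apply, smul_eq_mul]
      ring
    rw [h1]
    simpa using hf.const_mul c
  · intro f hf
    rw [Metric.tendsto_atTop]
    intro ε hε
    obtain ⟨g, hg, hfg⟩ := hf (ε / 3) (by positivity)
    rw [Metric.tendsto_atTop] at hg
    obtain ⟨N0, hN0⟩ := hg (ε / 3) (by positivity)
    refine ⟨N0, fun N hN => ?_⟩
    have h1 := hN0 N hN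
    rw [dist_eq_norm, sub_zero] at h1 ⊢
    have hsub : ∀ y, ‖f y - g y‖ ≤ ‖f - g‖ := fun y => by
      have := (f - g).norm_coe_le_norm y
      rwa [ContinuousMap.sub_apply] at this
    have h3 : ‖(∫ y, f y) - ∫ y, g y‖ ≤ ‖f - g‖ := by
      have hfi : Integrable (fun z => f z) (volume : Measure (Fin m → UnitAddCircle)) :=
        f.continuous.integrable_of_hasCompactSupport (HasCompactSupport.of_compactSpace _)
      have hgi : Integrable (fun z => g z) (volume : Measure (Fin m → UnitAddCircle)) :=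
        g.continuous.integrable_of_hasCompactSupport (HasCompactSupport.of_compactSpace _)
      rw [← integral_sub hfi hgi]
      have := norm_integral_le_of_norm_le_const (μ := (volume : Measure (Fin m → UnitAddCircle)))
        (f := fun z => f z - g z) (C := ‖f - g‖) (Eventually.of_forall fun z => hsub z)
      simpa using this
    have h2 : ‖wav z x f N - wav z x g N‖ ≤ 2 * ‖f - g‖ := by
      have e : wav z x f N - wav z x g N =
          (∑ n ∈ Icc 1 N, z n * ((f (x n) - g (x n)) - ((∫ y, f y) - ∫ y, g y))) / (N : ℂ) := by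
        unfold wav
        rw [← sub_div, ← sum_sub_distrib]
        congr 1
        refine sum_congr rfl fun n _ => ?_
        ring
      rw [e]
      rcases Nat.eq_zero_or_pos N with rfl | hN
      · simp
      · have hN0 : (0 : ℝ) < N := by exact_mod_cast hN
        rw [norm_div, Complex.norm_natCast, div_le_iff₀ hN0]
        refine (norm_sum_le _ _).trans ?_
        calc ∑ n ∈ Icc 1 N, ‖z n * ((f (x n) - g (x n)) - ((∫ y, f y) - ∫ y, g y))‖
            ≤ ∑ n ∈ Icc 1 N, 2 * ‖f - g‖ := sum_le_sum fun n _ => by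
              rw [norm_mul]
              have h4 : ‖(f (x n) - g (x n)) - ((∫ y, f y) - ∫ y, g y)‖ ≤ 2 * ‖f - g‖ := by
                refine (norm_sub_le _ _).trans ?_
                have := hsub (x n)
                linarith
              calc ‖z n‖ * ‖(f (x n) - g (x n)) - ((∫ y, f y) - ∫ y, g y)‖
                  ≤ 1 * (2 * ‖f - g‖) := mul_le_mul (hz n) h4 (norm_nonneg _) zero_le_one
                _ = _ := one_mul _
          _ = 2 * ‖f - g‖ * N := by simp; ring
    have e : wav z x f N = (wav z x f N - wav z x g N) + wav z x g N := by ring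
    rw [e]
    refine lt_of_le_of_lt (norm_add_le _ _) ?_
    linarith

/-- the conclusions of the theorem -/
def ConclusionZ {Ω : Type} [MeasurableSpace Ω] (P : Measure Ω) (D : ℕ → Ω → ℝ) (κ : ℝ)
    (ξ : Ω → ℝ) : Prop :=
  (∀ (m : ℕ) (η : Fin m → ℝ), LinearIndependent ℚ η → ∀ (Z : ℕ → Ω → ℂ) (Θ : ℕ → Ω → Fin m → ℝ),
    (∀ n ω, ‖Z n ω‖ ≤ 1) → (∀ n : ℕ, Measurable[Far D (κ * n)] (Z n)) →
    (∀ n : ℕ, Measurable[Far D (κ * n)] (Θ n)) →
    ∀ᵐ ω ∂P, ∀ f : C(Fin m → UnitAddCircle, ℂ), Tendsto (fun N : ℕ => (∑ n ∈ Icc 1 N, Z n ω *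
      (f (fun i => ((η i * ξ ω * Real.exp n + Θ n ω i : ℝ) : UnitAddCircle)) - ∫ y, f y)) / (N : ℂ))
      atTop (𝓝 0)) ∧
  (∀ η : ℝ, η ≠ 0 → ∀ Θ : ℕ → Ω → ℝ, (∀ n : ℕ, Measurable[Far D (κ * n)] (Θ n)) →
    ∀ᵐ ω ∂P, Equi (fun n => η * ξ ω * Real.exp n + Θ n ω) ∧
      ∀ m : ℕ, EquiTorus fun n (i : Fin m) =>
        η * ξ ω * Real.exp ((n + i : ℕ) : ℝ) + Θ (n + i) ω)

theorem conclusionZ_of {Ω : Type} [MeasurableSpace Ω] (P : Measure Ω)
    [IsProbabilityMeasure P] (D : ℕ → Ω → ℝ) (κ : ℝ) (hκ : 0 < κ) (ξ : Ω → ℝ)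
    (H : ∀ (Z : ℕ → Ω → ℂ), (∀ n : ℕ, Measurable[Far D (κ * n)] (Z n)) →
      (∀ n ω, ‖Z n ω‖ ≤ 1) → ∀ a : ℝ, a ≠ 0 →
      ∀ᵐ ω ∂P, Tendsto (fun N : ℕ => ‖TT (fun n => Z n ω) a 0 N (ξ ω)‖ / N) atTop (𝓝 0)) :
    ConclusionZ P D κ ξ := by
  have h3 : ∀ (m : ℕ) (η : Fin m → ℝ), LinearIndependent ℚ η →
    ∀ (Z : ℕ → Ω → ℂ) (Θ : ℕ → Ω → Fin m → ℝ),
    (∀ n ω, ‖Z n ω‖ ≤ 1) → (∀ n : ℕ, Measurable[Far D (κ * n)] (Z n)) →
    (∀ n : ℕ, Measurable[Far D (κ * n)] (Θ n)) →
    ∀ᵐ ω ∂P, ∀ f : C(Fin m → UnitAddCircle, ℂ), Tendsto (fun N : ℕ => (∑ n ∈ Icc 1 N, Z n ω *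
      (f (fun i => ((η i * ξ ω * Real.exp n + Θ n ω i : ℝ) : UnitAddCircle)) - ∫ y, f y)) / (N : ℂ))
      atTop (𝓝 0) := by
    intro m η hη Z Θ hZ1 hZ hΘ
    have h1 : ∀ k : Fin m → ℤ, ∀ᵐ ω ∂P, k ≠ 0 → Tendsto (fun N : ℕ => (∑ n ∈ Icc 1 N, Z n ω *
        mF k (fun i => ((η i * ξ ω * Real.exp n + Θ n ω i : ℝ) : UnitAddCircle))) / (N : ℂ)) atTop
        (𝓝 0) := by
      intro k
      by_cases hk : k ≠ 0
      · have ha : (∑ i, k i * η i) ≠ 0 := by
          intro h0
          apply hk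
          rw [Fintype.linearIndependent_iff] at hη
          have h2 := hη (fun i => (k i : ℚ)) (by
            rw [← h0]
            refine sum_congr rfl fun i _ => ?_
            rw [Algebra.smul_def]
            simp)
          funext i
          have := h2 i
          simpa using this
        have hm : ∀ n : ℕ, Measurable[Far D (κ * n)] fun ω => Z n ω * ee (∑ i, k i * Θ n ω i) := by
          intro n
          refine (hZ n).mul (measurable_ee.comp ?_)
          refine @Finset.measurable_fun_sum _ _ _ _ _ _ (Far D (κ * n)) _ _ fun i _ => ?_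
          exact ((measurable_pi_apply i).comp (hΘ n)).const_mul _
        have h1 : ∀ (n : ℕ) (ω : Ω), ‖Z n ω * ee (∑ i, k i * Θ n ω i)‖ ≤ 1 := by
          intro n ω
          rw [norm_mul, norm_ee, mul_one]
          exact hZ1 n ω
        filter_upwards [H (fun n ω => Z n ω * ee (∑ i, k i * Θ n ω i)) hm h1
          (∑ i, k i * η i) ha] with ω hω _
        rw [tendsto_zero_iff_norm_tendsto_zero]
        refine hω.congr fun N => ?_
        rw [norm_div, Complex.norm_natCast, Icc_one_eq]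
        unfold TT
        congr 2
        refine sum_congr rfl fun n _ => ?_
        rw [mF_coe, mul_assoc, ← ee_add]
        congr 2
        rw [sum_mul, sum_mul, ← sum_add_distrib]
        refine sum_congr rfl fun i _ => ?_
        ring
      · exact Eventually.of_forall fun ω h => absurd h hk
    filter_upwards [ae_all_iff.2 h1] with ω hω
    intro f
    exact weyl_torus_w (fun n => Z n ω) (fun n => hZ1 n ω) _ (fun k hk => hω k hk) f
  refine ⟨h3, ?_⟩
  intro η hη Θ hΘ
  have h1 : ∀ h : ℕ, ∀ᵐ ω ∂P, 1 ≤ h → Tendsto (fun N : ℕ =>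
      ‖∑ n ∈ Icc 1 N, ee (h * (η * ξ ω * Real.exp n + Θ n ω))‖ / N) atTop (𝓝 0) := by
    intro h
    by_cases hh : 1 ≤ h
    · have hh0 : (h : ℝ) ≠ 0 := by
        have : h ≠ 0 := by omega
        exact_mod_cast this
      filter_upwards [H (fun n ω => ee (h * Θ n ω))
        (fun n => measurable_ee.comp ((hΘ n).const_mul _)) (fun n ω => (norm_ee _).le)
        (h * η) (mul_ne_zero hh0 hη)] with ω hω _
      refine hω.congr fun N => ?_
      rw [Icc_one_eq]
      unfold TT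
      congr 2
      refine sum_congr rfl fun n _ => ?_
      rw [← ee_add]
      congr 1
      ring
    · exact Eventually.of_forall fun ω h => absurd h hh
  have h2 : ∀ m : ℕ, ∀ᵐ ω ∂P, EquiTorus fun n (i : Fin m) =>
      η * ξ ω * Real.exp ((n + i : ℕ) : ℝ) + Θ (n + i) ω := by
    intro m
    have hm : ∀ n : ℕ, Measurable[Far D (κ * n)] fun ω (i : Fin m) => Θ (n + i) ω := by
      intro n
      refine @measurable_pi_lambda Ω (Fin m) (fun _ => ℝ) (Far D (κ * n)) _ _ fun i => ?_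
      refine (hΘ (n + i)).mono (far_anti D ?_) le_rfl
      apply mul_le_mul_of_nonneg_left _ hκ.le
      push_cast
      have : (0 : ℝ) ≤ ((i : ℕ) : ℝ) := Nat.cast_nonneg _
      linarith
    filter_upwards [h3 m (fun i => η * Real.exp ((i : ℕ) : ℝ)) (lin_exp m η hη)
      (fun _ _ => 1) (fun n ω i => Θ (n + i) ω) (fun _ _ => by simp)
      (fun n => measurable_const) hm] with ω hω
    intro f
    have h4 := (hω f).add_const (∫ y, f y)
    rw [zero_add] at h4
    refine h4.congr' ?_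
    filter_upwards [eventually_gt_atTop 0] with N hN
    have hN0 : (N : ℂ) ≠ 0 := by exact_mod_cast hN.ne'
    have e1 : (∑ n ∈ Icc 1 N, (1 : ℂ) * (f (fun i => ((η * Real.exp ((i : ℕ) : ℝ) * ξ ω *
        Real.exp n + Θ (n + i) ω : ℝ) : UnitAddCircle)) - ∫ y, f y)) =
        (∑ n ∈ Icc 1 N, f (fun i => ((η * ξ ω * Real.exp ((n + i : ℕ) : ℝ) +
        Θ (n + i) ω : ℝ) : UnitAddCircle))) - N * ∫ y, f y := by
      simp only [one_mul]
      rw [sum_sub_distrib]
      congr 1
      · refine sum_congr rfl fun n _ => ?_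
        congr 1
        funext i
        congr 1
        push_cast
        rw [Real.exp_add]
        ring
      · simp
    rw [e1, sub_div, mul_div_cancel_left₀ _ hN0]
    ring
  filter_upwards [ae_all_iff.2 h1, ae_all_iff.2 h2] with ω hω hω2
  exact ⟨equi_of_weyl _ fun k hk => hω k hk, hω2⟩

/-- the hypotheses on the digits -/
def Digits {Ω : Type} [MeasurableSpace Ω] (P : Measure Ω) (D : ℕ → Ω → ℝ) : Prop :=
  (∀ j, Measurable (D j)) ∧ iIndepFun D P ∧ (∃ M : ℝ, ∀ j ω, |D j ω| ≤ M) ∧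
  (((∀ j ω, ∃ d : ℤ, D j ω = d) ∧ ∃ c : ℝ, 0 < c ∧ ∀ j d, P.real {ω | D j ω = d} ≤ 1 - c) ∨
    ((∀ j, IdentDistrib (D j) (D 0) P P) ∧
      ∃ x y : ℝ, x ≠ y ∧ 0 < P.real {ω | D 0 ω = x} ∧ 0 < P.real {ω | D 0 ω = y}))

theorem main {Ω : Type} [MeasurableSpace Ω] (P : Measure Ω) [IsProbabilityMeasure P]
    (β : ℝ) (hβ : 1 < β) (hH : Hyp β) (D : ℕ → Ω → ℝ) (hD : Digits P D) (κ : ℝ) (hκ : 0 < κ) :
    ConclusionZ P D κ fun ω => ∑' j, D j ω / β ^ (j + 1) := by
  obtain ⟨hDm, hI, ⟨M, hM⟩, hat⟩ := hD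
  have hsum : ∀ ω, Summable fun j => D j ω / β ^ (j + 1) := fun ω =>
    RP.summable_digits β hβ M _ fun j => hM j ω
  have hs : ∀ ω, Tendsto (fun n => ∑ j ∈ range n, D j ω / β ^ (j + 1)) atTop
      (𝓝 (∑' j, D j ω / β ^ (j + 1))) := fun ω => (hsum ω).hasSum.tendsto_sum_nat
  have hmeas : ∀ n, Measurable fun ω => ∑ j ∈ range n, D j ω / β ^ (j + 1) := fun n =>
    Finset.measurable_fun_sum _ fun j _ => (hDm j).div_const _
  have hξ : Measurable fun ω => ∑' j, D j ω / β ^ (j + 1) :=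
    measurable_of_tendsto_metrizable hmeas (tendsto_pi_nhds.2 hs)
  obtain ⟨ε, Cc, θ, d, hε, hε2, hCc, hθ0, hθ1, hW⟩ := hyp_window β hH
  have hdec : ∃ lam ρ : ℝ, lam ≠ 0 ∧ 0 ≤ ρ ∧ ρ < 1 ∧
      DecZ P D (fun ω => ∑' j, D j ω / β ^ (j + 1)) β ε lam ρ := by
    rcases hat with ⟨hZD, c, hc, hcD⟩ | ⟨hid, x, y, hxy, hx, hy⟩
    · refine decZ_int P β ε hε hε2 ⌈M⌉₊ c hc D hDm hI hZD (fun j ω => ?_) hcD _ hs
      exact (hM j ω).trans (Nat.le_ceil M)
    · exact decZ_real P β ε hε hε2 D hDm hI hid x y hxy hx hy _ hs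
  obtain ⟨lam, ρ, hlam, hρ0, hρ1, hdec⟩ := hdec
  exact conclusionZ_of P D κ hκ _ fun Z hZ hZ1 a ha =>
    ae_weyl P D hDm _ hξ β ε lam ρ Cc θ d hβ hCc hθ0 hθ1 hW hlam hρ0 hρ1 hdec κ hκ Z hZ hZ1 a ha

end Pool.Agent.R739.RW
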